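import Pool.Agent.H51.EqTE

namespace Pool.Agent.Results.MP_01a55a_lc.Counter

open Pool.Agent.H51.EqT Filter Topology

theorem result : ∃ (k : ℕ) (G : SimpleGraph (Fin k)) (L : ℝ), 2 ≤ k ∧ G.Connected ∧
    Tendsto (fun n : ℕ => (cost G n : ℝ) / n) atTop (𝓝 L) ∧ L < (c2 G : ℝ) / 2 := by
  refine ⟨9, GT, fc GT, by norm_num, GT_conn, tendsto_fc GT_conn, ?_⟩
  have : (10 : ℝ) ≤ c2 GT := by exact_mod_cast c2_GT
  rw [fc_GT]
  linarith

end Pool.Agent.Results.MP_01a55a_lc.Counter
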